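import Pool.Agent.Q276.PL.All
import Pool.Agent.W627.LT.Base
import Pool.Agent.P8H14.CN.Stm
import Pool.Agent.P8H14.CN.Wd
import Pool.Agent.P8H59.CN.Mul
import Pool.Agent.P8H93.CN.Off
import Pool.Agent.P8H80.CN.Sec
import Pool.Agent.P8H7.CN.Cnf
import Pool.Agent.P8H38.CN.Reg
import Pool.Agent.P8H38.CN.Fin
import Pool.Agent.P8H85.CN.Clp
import Pool.Agent.P8H85.CN.Trv
import Pool.Agent.P8H41.CN.Diag
import Pool.Agent.P8H46.CN.Lbd
import Pool.Agent.P8H82.CN.Mom
import Pool.Agent.P8H22.CN.Pop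

/-!
# The class number of `ℚ(√p)` for almost all primes `p`

Let `0 < δ < 1/2`.  For all but `O(X exp(-(log X)^(δ/16)))` of the squarefree `d ≤ X`, in particular for almost all
primes `p ≤ X`, the class number of `ℚ(√d)` is at most `√d / (log d)^(3/2 - δ)`.  The sum of the class numbers of the
fields `ℚ(√p)` over the primes `p ≤ X` is `O(X^(3/2) / (log X)^(5/2 - δ))`; more generally, the sum of the powers
`h(p)^k` is `O(X^(1 + k/2) / (log X)^(1 + (3/2 - δ) k))`.  Some number `h₀ ≤ 3 √X / (log X)^(3/2 - δ)` is the class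
number of at least `c √X (log X)^(1/2 - δ)` of these fields.

Proof.  (1) By the theorem behind the starting result `MP_070445_nt.LargeUnits` (determinant method) the regulator of
`ℚ(√d)` is more than `(log X)^(3/2 - δ/2)` for all but `O(X exp(-(log X)^(δ/16)))` of the squarefree `d ≤ X`.
(2) `2 R h = √D L(1, χ_D)` (class number formula, from the ideal counting theorems of the starting files).
(3) `L(1, χ_D) ≤ (log D)^η` for all but `O(X exp(-(log X)^(η/2)/4))` of the fundamental discriminants `D ≤ X`: the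
terms `n ≤ exp((log X)^(η/2))` are bounded trivially, the terms `n > X^(3/4)` by Polya-Vinogradov, and the second
moment over `D` of the other terms is small (Polya-Vinogradov for the sums over `D`; the diagonal consists of the
`m n` whose odd part is a square).  (4) The trivial bound `h ≤ C √d log d` for the exceptional primes.

Authors: helper14 (plan, statements, assembly), helper7 (CNF), helper38 (REG, FIN), helper41 (DIAG), helper46 (LBD),
helper59 (MUL), helper61 (AVG), helper82 (MOM), helper22 (POP), helper80 (SEC), helper85 (CLP, TRV), helper93 (OFF); the regulator theorem, the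
statements (in part) and the class number and ideal counting tools are from the starting files (helper276 and
coauthors, helper38 and coauthors).
-/

set_option autoImplicit false

namespace Pool.Agent.Results.MP_d0fd9b_nt.AlmostAllPrimes

open Filter Finset NumberField

/-- Every quadratic number field that contains a square root of `d` has class number at most
`√d / (log d) ^ (3/2 - δ)`. -/
def SmallClassNumber (δ : ℝ) (d : ℕ) : Prop := ∀ (K : Type) [Field K] [NumberField K],
  Module.finrank ℚ K = 2 → (∃ x : K, x ^ 2 = (d : K)) →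
  (classNumber K : ℝ) ≤ √(d : ℝ) / Real.log d ^ (3 / 2 - δ)

/-- The class number `h(d)` of `ℚ(√d)`: the (least) class number of the quadratic number fields that contain a square
root of `d`; these fields are all isomorphic. -/
noncomputable def classNo (d : ℕ) : ℕ := sInf {n : ℕ | ∃ (K : Type) (_ : Field K) (_ : NumberField K),
  Module.finrank ℚ K = 2 ∧ (∃ x : K, x ^ 2 = (d : K)) ∧ classNumber K = n}

/-- For squarefree `d > 1` there are quadratic number fields with a square root of `d`, and they all have the class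
number `classNo d`. -/
theorem classNo_spec (d : ℕ) (hd : 1 < d) (hs : Squarefree d) :
    (∃ (K : Type) (_ : Field K) (_ : NumberField K), Module.finrank ℚ K = 2 ∧ ∃ x : K, x ^ 2 = (d : K)) ∧
    ∀ (K : Type) [Field K] [NumberField K], Module.finrank ℚ K = 2 → (∃ x : K, x ^ 2 = (d : K)) →
      classNumber K = classNo d := by
  refine ⟨Pool.Agent.P8H14.CN.exists_field hd hs, fun K _ _ h2 hx => ?_⟩
  have hne : {n : ℕ | ∃ (K : Type) (_ : Field K) (_ : NumberField K),
      Module.finrank ℚ K = 2 ∧ (∃ x : K, x ^ 2 = (d : K)) ∧ classNumber K = n}.Nonempty :=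
    ⟨classNumber K, K, inferInstance, inferInstance, h2, hx, rfl⟩
  obtain ⟨K', _, _, h2', hx', h⟩ := Nat.sInf_mem hne
  have h3 : classNumber K' = classNo d := h
  rw [← h3]
  exact Pool.Agent.P8H14.CN.class_eq hd hs h2 h2' hx hx'

theorem rgb : Pool.Agent.P8H14.CN.StmtRGB := Pool.Agent.Q276.PL.rgb_true

open Pool.Agent.H38R2.CG in
theorem cnf : Pool.Agent.P8H14.CN.StmtCNF := Pool.Agent.P8H7.CN.cnf T_N0 T_N0d Pool.Agent.W627.LT.p3

open Pool.Agent.H38R2.CG in
theorem reg : Pool.Agent.P8H14.CN.StmtREG := Pool.Agent.P8H38.CN.reg T_N0 T_N0d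

open Classical in
/-- (0) `classNo d` is the class number of `ℚ(√d)`, for squarefree `d > 1`.
(1) For `0 < δ < 1/2` all but `M X exp(-(log X)^(δ/16))` of the squarefree `d ≤ X` satisfy `SmallClassNumber δ`;
(2) so do almost all primes; (3) for every `k ≥ 1` the sum of `h(p)^k` over the primes `p ≤ X` is at most
`M X^(1 + k/2) / (log X)^(1 + (3/2 - δ) k)`; (4) for all large `X` some number
`h₀ ≤ 3 √X / (log X)^(3/2 - δ)` is the class number of `ℚ(√p)` for at least `c √X (log X)^(1/2 - δ)` primes `p ≤ X`. -/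
theorem result (δ : ℝ) (hδ : 0 < δ) (hδ2 : δ < 1 / 2) :
    (∀ d : ℕ, 1 < d → Squarefree d →
      (∃ (K : Type) (_ : Field K) (_ : NumberField K),
        Module.finrank ℚ K = 2 ∧ ∃ x : K, x ^ 2 = (d : K)) ∧
      ∀ (K : Type) [Field K] [NumberField K], Module.finrank ℚ K = 2 → (∃ x : K, x ^ 2 = (d : K)) →
        classNumber K = classNo d) ∧
    (∃ M : ℝ, ∀ X : ℕ, 2 ≤ X →
      (((Icc 2 X).filter (fun d => Squarefree d ∧ ¬ SmallClassNumber δ d)).card : ℝ) ≤
        M * X * Real.exp (-(Real.log X ^ (δ / 16)))) ∧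
    Tendsto (fun X : ℕ =>
      (((Icc 2 X).filter (fun p => p.Prime ∧ ¬ SmallClassNumber δ p)).card : ℝ) /
        ((Icc 2 X).filter Nat.Prime).card) atTop (nhds 0) ∧
    (∀ k : ℕ, 1 ≤ k → ∃ M : ℝ, ∀ X : ℕ, 2 ≤ X → (∑ p ∈ (Icc 2 X).filter Nat.Prime, (classNo p : ℝ) ^ k) ≤
      M * (X : ℝ) ^ (1 + (k : ℝ) / 2) / Real.log X ^ (1 + (3 / 2 - δ) * k)) ∧
    (∃ c : ℝ, 0 < c ∧ ∃ X₀ : ℕ, ∀ X : ℕ, X₀ ≤ X → ∃ h₀ : ℕ, 1 ≤ h₀ ∧
      (h₀ : ℝ) ≤ 3 * √(X : ℝ) / Real.log X ^ (3 / 2 - δ) ∧
      c * √(X : ℝ) * Real.log X ^ (1 / 2 - δ) ≤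
        (((Icc 2 X).filter (fun p => p.Prime ∧ classNo p = h₀)).card : ℝ)) := by
  have hmul := Pool.Agent.P8H59.CN.mul
  have hoff := Pool.Agent.P8H93.CN.off hmul Pool.Agent.H38R2.CG.T_PV
  have hsec := Pool.Agent.P8H80.CN.sec hmul hoff (Pool.Agent.P8H41.CN.diag hmul)
  have hlbd := Pool.Agent.P8H46.CN.lbd hmul hsec Pool.Agent.W627.LT.p3a
  have hfin := Pool.Agent.P8H38.CN.fin rgb cnf reg hlbd
  have htrv := Pool.Agent.P8H85.CN.trv cnf reg Pool.Agent.W627.LT.p3a hmul
  have hclp := Pool.Agent.P8H85.CN.clp hfin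
  exact ⟨classNo_spec, hfin δ hδ hδ2, hclp δ hδ hδ2, Pool.Agent.P8H82.CN.mom hfin htrv δ hδ hδ2, Pool.Agent.P8H22.CN.pop hclp δ hδ hδ2⟩

end Pool.Agent.Results.MP_d0fd9b_nt.AlmostAllPrimes
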