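import Pool.Agent.P8H6.CN.Fin
import Pool.Agent.Results.MP_d0fd9b_nt.SparseSetsOfPrimes

/-!
# Class groups of real quadratic fields near the integers obtained by changing very few digits of an arbitrary integer

Let `P` be ANY set of primes that contains, for every `σ < s` and all large `y`, at least `y ^ σ` primes of the interval `(y, 2y]`; here
`0 < s ≤ 1` is arbitrary.  Let `a s > 1` and `e = (1 - s) / 2 + 1 / (2 a)`.  Change `r` of the `L` digits of an ARBITRARY integer `N < b ^ L`
in base `b`, where `C log L ≤ r ≤ L / 2`, so that `r` may be as small as a constant times the logarithm of the number of the digits.  For all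
but a proportion `L ^ (-A)` of the choices of the `r` places the number `m` which arises has the following property.  For ALL squarefree
`d ≥ exp (L ^ ε)` of the form `d = u m + v` with `1 ≤ u ≤ L ^ B` and `|v| ≤ L ^ B`, in particular for all the prime numbers `d` whose
distance from `m` is at most a fixed arbitrary power of `log (b ^ L)`, and for the field `K = ℚ(√d)` with the class number `h`:

* the classes of the prime ideals of `K` the norm of which is a prime number of `P` and at most `(log d) ^ a` generate a subgroup of index at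
  most `d ^ (e + ε)`,
* at least `h / d ^ (e + ε)` classes are products of at most `log d / log log d` such classes,
* if all these prime ideals are principal, then `h ≤ d ^ (e + ε)`.

Proof: for almost all changes of the digits at least a fixed proportion of the primes of `P` in `(z, 2 z]` split in `ℚ(√(u m + v))`, for all
`u`, `v` as above and all `z` in a long range (starting library: local conditions for few changed digits, `Pool.Agent.Y57.FD.law`); then the
products of such primes of norm below a quarter of the square root of the discriminant are counted, as in `SparseSetsOfPrimes`.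
-/

set_option autoImplicit false

namespace Pool.Agent.Results.MP_d0fd9b_nt.DigitChanges

open Finset
open Pool.Agent.Results.MP_d0fd9b_nt.SparseSetsOfPrimes (HasExponent Good many_of good_of_goodT)

/-- The digit number `i` (counted from the right, beginning with `0`) of `n` in base `b`. -/
def digit (b i n : ℕ) : ℕ := n / b ^ i % b

/-- The number which arises from the number `N` with at most `L` digits in base `b`, if for every `i ∈ S`
the digit number `i` is replaced by `f i`. -/
def change (b L N : ℕ) (f : ℕ → ℕ) (S : Finset ℕ) : ℕ := ∑ i ∈ range L, (if i ∈ S then f i else digit b i N) * b ^ i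

open Classical in
/-- The number of the choices of `r` of `L` places for which the number obtained by changing the digits of `N` at the chosen places
(according to `f`) does not have the property `E`. -/
noncomputable def exceptions (b L r N : ℕ) (f : ℕ → ℕ) (E : ℕ → Prop) : ℕ :=
  ((powersetCard r (range L)).filter (fun S => ¬ E (change b L N f S))).card

/-- The natural numbers `u m + v` with natural numbers `1 ≤ u ≤ R` and integers `|v| ≤ R`. -/
def Near (R m : ℕ) : Set ℕ := {d | ∃ (u : ℕ) (v : ℤ), 1 ≤ u ∧ u ≤ R ∧ |v| ≤ (R : ℤ) ∧ (d : ℤ) = (u : ℤ) * (m : ℤ) + v}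

lemma exc_eq (b L r N : ℕ) (f : ℕ → ℕ) (E : ℕ → Prop) : exceptions b L r N f E = Pool.Agent.P8H6.CN.exceptions b L r N f E := rfl

open Classical in
lemma exc_mono (b L r N : ℕ) (f : ℕ → ℕ) (E E' : ℕ → Prop) (h : ∀ m, E' m → E m) : exceptions b L r N f E ≤ exceptions b L r N f E' := by
  unfold exceptions
  apply card_le_card
  intro S hS
  rw [mem_filter] at hS ⊢
  exact ⟨hS.1, fun hE => hS.2 (h _ hE)⟩

/-- Let `P` be a set of primes with exponent `s`, `0 < s ≤ 1` (`HasExponent`), `a s > 1`, `ε > 0`, `b ≥ 2` and `A, B ≥ 0`.  There are `C`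
and `L₀` such that for all `L ≥ L₀`, all `r` with `C log L ≤ r ≤ L / 2`, every integer `0 ≤ N < b ^ L` and every prescription of digits `f j`
different from the digits of `N`: if one replaces the digits of `N` at `r` of the `L` places by the prescribed ones, then for all but at most
a proportion `L ^ (-A)` of the choices of the places the number `m` which arises has the property that all squarefree `d` with
`d ≥ exp (L ^ ε)` in `Near (L ^ B) m`, in particular all the primes `d ≥ exp (L ^ ε)` with `|d - m| ≤ L ^ B`, are good for `P`, `a` and the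
exponent `(1 - s) / 2 + 1 / (2 a) + ε` (`SparseSetsOfPrimes.Good`). -/
theorem result (P : Set ℕ) (s a : ℝ) (hs0 : 0 < s) (hs1 : s ≤ 1) (hP : HasExponent P s) (ha : 1 < a * s) (ε : ℝ) (hε : 0 < ε)
    (b : ℕ) (hb : 2 ≤ b) (A B : ℕ) :
    ∃ C : ℝ, 0 < C ∧ ∃ L₀ : ℕ, ∀ L r : ℕ, L₀ ≤ L → C * Real.log L ≤ r → 2 * r ≤ L → ∀ N : ℕ, N < b ^ L →
    ∀ f : ℕ → ℕ, (∀ j, f j < b ∧ f j ≠ digit b j N) →
      (exceptions b L r N f (fun m => ∀ d ∈ Near (L ^ B) m, Squarefree d → Real.exp ((L : ℝ) ^ ε) ≤ d →
        Good P a ((1 - s) / 2 + 1 / (2 * a) + ε) d) : ℝ) ≤ 1 / (L : ℝ) ^ A * (L.choose r : ℝ) := by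
  have ha0 : 0 < a := by
    by_contra hcon
    rw [not_lt] at hcon
    nlinarith
  -- an exponent `σ < s`
  obtain ⟨σ, hσ⟩ : ∃ σ : ℝ, σ = max ((s + 1 / a) / 2) (s - min (ε / 2) (s / 2)) := ⟨_, rfl⟩
  have h1a : 1 / a < s := by
    rw [div_lt_iff₀ ha0]
    linarith
  have hmin0 : 0 < min (ε / 2) (s / 2) := lt_min (by positivity) (by positivity)
  have hσs : σ < s := by
    rw [hσ]
    exact max_lt (by linarith) (by linarith)
  have hσ1 : (s + 1 / a) / 2 ≤ σ := by rw [hσ]; exact le_max_left _ _
  have hσ2 : s - min (ε / 2) (s / 2) ≤ σ := by rw [hσ]; exact le_max_right _ _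
  have hminε : min (ε / 2) (s / 2) ≤ ε / 2 := min_le_left _ _
  have hσ0 : 0 < σ := by
    have : 0 < 1 / a := by positivity
    linarith
  have haσ : 1 < a * σ := by
    have h1 : 1 / a < σ := by linarith
    rw [div_lt_iff₀ ha0] at h1
    linarith
  obtain ⟨C, hC, L₀, h⟩ := Pool.Agent.P8H6.CN.main P σ a (ε / 2) hσ0 (by linarith) (many_of P s σ hP hσs) haσ (by positivity) b hb A B
  refine ⟨C, hC, L₀ + 1, fun L r hL hr hrL N hN f hf => ?_⟩
  refine le_trans ?_ (h L r (by omega) hr hrL N hN f hf)
  rw [← exc_eq]
  have hLr : (1 : ℝ) ≤ L := by exact_mod_cast (by omega : 1 ≤ L)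
  refine Nat.cast_le.2 (exc_mono b L r N f _ _ fun m hm d hd hsq hdL => ?_)
  obtain ⟨u, v, hu, huB, hv, hd'⟩ := hd
  have h1 := hm u hu huB v hv d hd' hsq (by
    refine le_trans (Real.exp_le_exp.2 ?_) hdL
    exact Real.rpow_le_rpow_of_exponent_le hLr (by linarith))
  have hd1 : 1 ≤ d := by
    have : (0 : ℝ) < d := lt_of_lt_of_le (Real.exp_pos _) hdL
    exact_mod_cast this
  exact good_of_goodT hd1 (by linarith) h1

end Pool.Agent.Results.MP_d0fd9b_nt.DigitChanges
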