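import Pool.Agent.P8H9.OP.Fin2
import Pool.Agent.Results.MP_d0fd9b_nt.ShortIntervals

/-!
# One percent of the small primes and the class number of `ℚ(√p)`

Let `P` be any set of primes that contains, for every `σ < s` and all large `y`, at least `y ^ σ` primes of
`(y, 2y]`, and `a s > 1`. For a squarefree integer `d` in `(x, x + H]` let `K` be the field of the square root
of `d` and `h` its class number. The window is the set of the primes of `P` in `(y, 2y]`, `y = ⌊(log x)^a / 4⌋`.
Let `0 < w ≤ 1`, `e > max (0, (a - 2 w (a s - 1)) / (2 (a (1 + s) - 1)))` (so any `e > 0` for the set of all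
primes, `w = 1` and `a ≥ 2`), `q = (w + e) / a`, `b ≥ 1`, and let `θ > 0` be arbitrarily small, for example one
percent.

There are `δ > 0` and `C` such that for ALL `x` and `H` with `x ^ w ≤ H ≤ x`, all but at most `C H x^(-δ)` of
the squarefree integers `d` in `(x, x + H]`, in particular all but at most `C H x^(-δ)` of the primes in
`(x, x + H]`, have the following property. Let `T` be any set of ideal classes such that at least `θ` times the
number of all primes of the window are norms of (prime) ideals with classes in `T`. Then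

* `h ≤ x^e` times the number of the classes which are products of at most `q log x / log log x` elements of
  `T`;
* if `T` is contained in a coset of a subgroup `U` of the class group, the index of `U` is at most `x^e`;
* if `T` has at most `(log x)^b` elements, then `h ≤ x^(e + q (b - 1))`; so if `h > x^η`, then one percent of
  the primes of the window lie in more than `(log x)^b` classes, for every `b < 1 + (η - e) / q`.

So if one percent of the small primes are norms of ideals of `log x` classes (for example of principal ideals,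
as is the case if `h = 1`), then `h ≤ x^e`. The starting results assume that ALL small prime ideals are
principal.

Proof. The near collision sum (starting files, project SI) bounds `h` times the energy of the products of `k`
primes of the window; the products of the primes above which there is an ideal with class in `T` are a
proportion `θ^k = x^(-o(1))` of all products, and they are in few classes (Cauchy-Schwarz).
-/

set_option autoImplicit false

namespace Pool.Agent.Results.MP_d0fd9b_nt.OnePercentOfTheSmallPrimes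

open Filter Finset NumberField
open Pool.Agent.Results.MP_d0fd9b_nt.ShortIntervals (primesIn HasExponent expo exceptions
  primeExceptions prime_le exceptions_le expo_le many_of)
open scoped Classical

/-- The primes of `P` in `(y, 2y]`, where `y = ⌊(log x)^a / 4⌋`. -/
noncomputable def window (P : Set ℕ) (a : ℝ) (x : ℕ) : Finset ℕ :=
  primesIn P ⌊(Real.log x) ^ a / 4⌋₊

/-- The number of the primes of the window which are norms of ideals of `K` whose class is in `T`. -/
noncomputable def hits (P : Set ℕ) (a : ℝ) (x : ℕ) (K : Type) [Field K] [NumberField K]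
    (T : Set (ClassGroup (𝓞 K))) : ℕ :=
  ((window P a x).filter (fun p => ∃ 𝔭 : nonZeroDivisors (Ideal (𝓞 K)),
    Ideal.absNorm (𝔭 : Ideal (𝓞 K)) = p ∧ ClassGroup.mk0 𝔭 ∈ T)).card

/-- The ideal classes which are products of at most `n` elements of `T`. -/
def Products (K : Type) [Field K] [NumberField K] (T : Set (ClassGroup (𝓞 K))) (n : ℝ) :
    Set (ClassGroup (𝓞 K)) :=
  {C | ∃ L : Multiset (ClassGroup (𝓞 K)), (∀ c ∈ L, c ∈ T) ∧ (L.card : ℝ) ≤ n ∧ L.prod = C}

/-- `log x / log log x` -/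
noncomputable def len (x : ℕ) : ℝ := Real.log x / Real.log (Real.log x)

/-- The property of the integer `d`, at the scale `x`: if `K` is a quadratic field which contains a square root
of `d` and `T` is a set of ideal classes such that at least `θ` times the number of all primes of the window
are norms of ideals with class in `T`, then (1) the class number is at most `x ^ e` times the number of the
products of at most `((w + e) / a) log x / log log x` elements of `T`; (2) if `T` is contained in the coset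
`g U`, the index of the subgroup `U` is at most `x ^ e`; (3) if `T` has at most `(log x) ^ b` elements, the
class number is at most `x ^ (e + (w + e) (b - 1) / a)`. -/
def Law (P : Set ℕ) (a w θ b e : ℝ) (x d : ℕ) : Prop :=
  ∀ (K : Type) [Field K] [NumberField K], Module.finrank ℚ K = 2 → (∃ z : K, z ^ 2 = (d : K)) →
    ∀ T : Set (ClassGroup (𝓞 K)), θ * ((window P a x).card : ℝ) ≤ (hits P a x K T : ℝ) →
      (classNumber K : ℝ) ≤ (x : ℝ) ^ e * ((Products K T ((w + e) / a * len x)).ncard : ℝ) ∧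
      (∀ (U : Subgroup (ClassGroup (𝓞 K))) (g : ClassGroup (𝓞 K)), (∀ t ∈ T, g⁻¹ * t ∈ U) →
        (U.index : ℝ) ≤ (x : ℝ) ^ e) ∧
      ((T.ncard : ℝ) ≤ (Real.log x) ^ b → (classNumber K : ℝ) ≤ (x : ℝ) ^ (e + (w + e) / a * (b - 1)))

theorem ev_loglog (b : ℝ) : ∀ᶠ x : ℕ in atTop, b ≤ Real.log (Real.log (x : ℝ)) :=
  (Real.tendsto_log_atTop.comp (Real.tendsto_log_atTop.comp
    tendsto_natCast_atTop_atTop)).eventually_ge_atTop b

theorem evA (q η : ℝ) (hq : 0 ≤ q) (hη : 0 < η) :
    ∀ᶠ x : ℕ in atTop, ((⌊q * len x⌋₊ : ℕ) : ℝ) + 1 ≤ (x : ℝ) ^ η := by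
  have hpow : ∀ᶠ x : ℕ in atTop, q + 1 ≤ (x : ℝ) ^ (η / 2) :=
    ((tendsto_rpow_atTop (show (0 : ℝ) < η / 2 by positivity)).comp
      tendsto_natCast_atTop_atTop).eventually_ge_atTop (q + 1)
  filter_upwards [ev_loglog 1, Pool.Agent.H38R2.CG2.ERRh.ev_log (η / 2) (by positivity), hpow,
    eventually_ge_atTop 1] with x h1 h2 h3 h3'
  have hx0 : (0 : ℝ) < x := by exact_mod_cast h3'
  have h4 : 0 ≤ Real.log x := Real.log_natCast_nonneg x
  have h5 : 0 ≤ len x := div_nonneg h4 (by linarith)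
  have h6 : len x ≤ Real.log x := by
    unfold len
    exact div_le_self h4 h1
  have h7 := Nat.floor_le (show 0 ≤ q * len x by positivity)
  have h8 : q * len x ≤ q * (x : ℝ) ^ (η / 2) := by
    refine mul_le_mul_of_nonneg_left (h6.trans ?_) hq
    linarith
  have h9 : (x : ℝ) ^ η = (x : ℝ) ^ (η / 2) * (x : ℝ) ^ (η / 2) := by
    rw [← Real.rpow_add hx0]
    congr 1
    ring
  have h10 : (1 : ℝ) ≤ (x : ℝ) ^ (η / 2) := by linarith
  rw [h9]
  nlinarith

/-- everything follows from the first property -/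
theorem law_of {P : Set ℕ} {a w θ b e c e0 η q : ℝ} {x d : ℕ} (hx : 1 ≤ x) (he : e0 + η ≤ e) (hη : 0 ≤ η)
    (hq : q = (w + e) / a)
    (hk : (Pool.Agent.N71.SP.kS a c x : ℝ) ≤ q * len x)
    (hA : ((⌊q * len x⌋₊ : ℕ) : ℝ) + 1 ≤ (x : ℝ) ^ η)
    (hB : ∀ t : ℕ, (t : ℝ) ≤ (Real.log x) ^ b →
      (((t + ⌊q * len x⌋₊).choose ⌊q * len x⌋₊ : ℕ) : ℝ) ≤ (x : ℝ) ^ (q * (b - 1) + η))
    (h : Pool.Agent.P8H9.OP.GoodK P θ a c e0 x d) : Law P a w θ b e x d := by
  intro K _ _ hK hz T hT
  have h0 : (Nat.card (ClassGroup (𝓞 K)) : ℝ) ≤ (x : ℝ) ^ e0 *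
      ((Products K T (Pool.Agent.N71.SP.kS a c x : ℝ)).ncard : ℝ) := h K hK hz T hT
  have hcl : (classNumber K : ℝ) = Nat.card (ClassGroup (𝓞 K)) := by
    unfold classNumber
    rw [Nat.card_eq_fintype_card]
  have hxr : (1 : ℝ) ≤ x := by exact_mod_cast hx
  have hx0 : (0 : ℝ) < x := by linarith
  have hp0 : 0 < (x : ℝ) ^ e0 := Real.rpow_pos_of_pos hx0 _
  have h1 : (Nat.card (ClassGroup (𝓞 K)) : ℝ) ≤ (x : ℝ) ^ e0 *
      ((Products K T (q * len x)).ncard : ℝ) := by
    refine h0.trans (mul_le_mul_of_nonneg_left ?_ hp0.le)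
    exact_mod_cast Set.ncard_le_ncard (Pool.Agent.P8H9.OP.prods_mono hk) (Set.toFinite _)
  have hpe : (x : ℝ) ^ e0 * (x : ℝ) ^ η ≤ (x : ℝ) ^ e := by
    rw [← Real.rpow_add hx0]
    exact Real.rpow_le_rpow_of_exponent_le hxr he
  have hpe0 : (x : ℝ) ^ e0 ≤ (x : ℝ) ^ e := Real.rpow_le_rpow_of_exponent_le hxr (by linarith)
  rw [hcl, ← hq]
  refine ⟨h1.trans (mul_le_mul_of_nonneg_right hpe0 (Nat.cast_nonneg _)), ?_, ?_⟩
  · intro U g hU
    have h2 : (((Products K T (q * len x)).ncard : ℕ) : ℝ) ≤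
        (((⌊q * len x⌋₊ : ℕ) : ℝ) + 1) * Nat.card U := by
      exact_mod_cast Pool.Agent.P8H9.OP.ncard_coset U g hU (q * len x)
    have h5 : (0 : ℝ) < Nat.card U := by exact_mod_cast Nat.card_pos
    have h6 : (Nat.card (ClassGroup (𝓞 K)) : ℝ) = Nat.card U * U.index := by
      exact_mod_cast (Subgroup.card_mul_index U).symm
    have h7 : (U.index : ℝ) * Nat.card U ≤ (x : ℝ) ^ e * Nat.card U := by
      calc (U.index : ℝ) * Nat.card U = Nat.card (ClassGroup (𝓞 K)) := by rw [h6]; ring
        _ ≤ (x : ℝ) ^ e0 * ((Products K T (q * len x)).ncard : ℝ) := h1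
        _ ≤ (x : ℝ) ^ e0 * ((x : ℝ) ^ η * Nat.card U) :=
            mul_le_mul_of_nonneg_left (h2.trans (mul_le_mul_of_nonneg_right hA h5.le)) hp0.le
        _ = ((x : ℝ) ^ e0 * (x : ℝ) ^ η) * Nat.card U := by ring
        _ ≤ _ := mul_le_mul_of_nonneg_right hpe h5.le
    exact le_of_mul_le_mul_right h7 h5
  · intro ht
    have h2 : (((Products K T (q * len x)).ncard : ℕ) : ℝ) ≤
        (((T.ncard + ⌊q * len x⌋₊).choose ⌊q * len x⌋₊ : ℕ) : ℝ) := by
      exact_mod_cast Pool.Agent.P8H9.OP.ncard_choose T (q * len x)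
    calc (Nat.card (ClassGroup (𝓞 K)) : ℝ) ≤ (x : ℝ) ^ e0 *
          ((Products K T (q * len x)).ncard : ℝ) := h1
      _ ≤ (x : ℝ) ^ e0 * (x : ℝ) ^ (q * (b - 1) + η) :=
          mul_le_mul_of_nonneg_left (h2.trans (hB _ ht)) hp0.le
      _ = (x : ℝ) ^ (e0 + η + q * (b - 1)) := by
          rw [← Real.rpow_add hx0]
          congr 1
          ring
      _ ≤ _ := Real.rpow_le_rpow_of_exponent_le hxr (by linarith)

/-- **One percent of the small primes.** Let `P` be a set of primes of exponent `s`, `a s > 1`, `0 < w ≤ 1`,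
`θ > 0` and `b ≥ 1`. For every `ε > 0` there are `δ > 0` and `C` such that for all `x` and `H` with
`x ^ w ≤ H ≤ x` all but at most `C H x^(-δ)` of the squarefree integers of `(x, x + H]`, and all but at most
`C H x^(-δ)` of the primes of `(x, x + H]`, satisfy `Law` with the exponent `e + ε`, where
`e = max (0, (a - 2 w (a s - 1)) / (2 (a (1 + s) - 1)))`. -/
theorem result (P : Set ℕ) (s : ℝ) (hs0 : 0 < s) (hs1 : s ≤ 1) (hP : HasExponent P s)
    (a w θ b ε : ℝ) (ha : 1 < a * s) (hw0 : 0 < w) (hw1 : w ≤ 1) (hθ : 0 < θ) (hb : 1 ≤ b) (hε : 0 < ε) :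
    ∃ δ C : ℝ, 0 < δ ∧ 0 < C ∧ ∀ x H : ℕ, 1 ≤ x → (x : ℝ) ^ w ≤ H → H ≤ x →
      (exceptions x H (Law P a w θ b (expo s a w + ε) x) : ℝ) ≤ C * (H * (x : ℝ) ^ (-δ)) ∧
      (primeExceptions x H (Law P a w θ b (expo s a w + ε) x) : ℝ) ≤ C * (H * (x : ℝ) ^ (-δ)) := by
  have ha0 : 0 < a := by
    by_contra h
    push Not at h
    nlinarith
  have h1 := expo_le a ha0 (w := w) ha (ε := ε / 4) (by positivity)
  have h2 : ∀ᶠ σ : ℝ in nhdsWithin s (Set.Iio s), 1 / a < σ := by
    apply nhdsWithin_le_nhds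
    apply lt_mem_nhds
    rw [div_lt_iff₀ ha0]
    linarith
  have h3 : ∀ᶠ σ : ℝ in nhdsWithin s (Set.Iio s), σ < s := self_mem_nhdsWithin
  obtain ⟨σ, h4, h5, h6⟩ := (h1.and (h2.and h3)).exists
  have hσ0 : 0 < σ := lt_trans (by positivity) h5
  have haσ : 1 < a * σ := by
    rw [div_lt_iff₀ ha0] at h5
    linarith
  obtain ⟨δ, hδ, hδ1, x0, h⟩ := Pool.Agent.P8H9.OP.t_OPk P σ hσ0 (by linarith)
    (many_of P s σ hP h6) a haσ w hw0 hw1 θ hθ (ε / 4) (by positivity)
  have h4' : Pool.Agent.P8H9.OP.eS σ a w < expo s a w + ε / 4 := h4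
  have hes0 : 0 ≤ Pool.Agent.P8H9.OP.eS σ a w := le_max_left _ _
  have hex0 : 0 ≤ expo s a w := le_max_left _ _
  set q : ℝ := (w + (expo s a w + ε)) / a with hq
  have hq0 : 0 < q := by positivity
  obtain ⟨x1, hx1⟩ := Filter.eventually_atTop.1 ((evA q (ε / 2) hq0.le (by positivity)).and
    ((Pool.Agent.P8H9.OP.ev_few q b (ε / 2) hq0 hb (by positivity)).and
    ((Pool.Agent.P8H9.OP.ev_kS a (w + Pool.Agent.P8H9.OP.eS σ a w) (ε / 2) ha0 (by positivity)
      (by positivity)).and (ev_loglog 1))))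
  set X : ℕ := max x0 x1 with hX
  have hkey : ∀ x H : ℕ, 1 ≤ x → (x : ℝ) ^ w ≤ H → H ≤ x →
      (exceptions x H (Law P a w θ b (expo s a w + ε) x) : ℝ) ≤
        (5 + (X : ℝ) ^ δ) * (H * (x : ℝ) ^ (-δ)) := by
    intro x H hx hxH hHx
    have hx0 : (0 : ℝ) < x := by exact_mod_cast hx
    have hH0 : (0 : ℝ) ≤ H := Nat.cast_nonneg _
    have hp : 0 < (x : ℝ) ^ (-δ) := Real.rpow_pos_of_pos hx0 _
    have hXδ : 0 ≤ (X : ℝ) ^ δ := Real.rpow_nonneg (Nat.cast_nonneg _) _
    by_cases hxX : X ≤ x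
    · have h7 := h x ((le_max_left _ _).trans hxX) H hxH hHx
      obtain ⟨hA, hB, hK, hll⟩ := hx1 x ((le_max_right _ _).trans hxX)
      have hlen : 0 ≤ len x := div_nonneg (Real.log_natCast_nonneg x) (by linarith)
      have hk : (Pool.Agent.N71.SP.kS a (w + Pool.Agent.P8H9.OP.eS σ a w) x : ℝ) ≤ q * len x := by
        refine hK.trans ?_
        refine mul_le_mul_of_nonneg_right ?_ hlen
        rw [hq]
        refine div_le_div_of_nonneg_right ?_ ha0.le
        linarith
      have h8 : (exceptions x H (Law P a w θ b (expo s a w + ε) x) : ℝ) ≤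
          (((Finset.Ioc x (x + H)).filter (fun d => Squarefree d ∧
            ¬ Pool.Agent.P8H9.OP.GoodK P θ a (w + Pool.Agent.P8H9.OP.eS σ a w)
              (Pool.Agent.P8H9.OP.eS σ a w + ε / 4) x d)).card : ℝ) := by
        have h9 : exceptions x H (Law P a w θ b (expo s a w + ε) x) ≤
            ((Finset.Ioc x (x + H)).filter (fun d => Squarefree d ∧
            ¬ Pool.Agent.P8H9.OP.GoodK P θ a (w + Pool.Agent.P8H9.OP.eS σ a w)
              (Pool.Agent.P8H9.OP.eS σ a w + ε / 4) x d)).card := by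
          apply Finset.card_le_card
          intro d hd
          rw [Finset.mem_filter] at hd ⊢
          refine ⟨hd.1, hd.2.1, fun hg => hd.2.2 ?_⟩
          exact law_of hx (by linarith) (by positivity) hq hk hA hB hg
        exact_mod_cast h9
      have h10 : 0 ≤ (X : ℝ) ^ δ * (H * (x : ℝ) ^ (-δ)) := by positivity
      linarith
    · have h7 : (exceptions x H (Law P a w θ b (expo s a w + ε) x) : ℝ) ≤ H := by
        exact_mod_cast exceptions_le x H _
      have h8 : (x : ℝ) ≤ X := by exact_mod_cast (not_le.1 hxX).le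
      have h9 : 1 ≤ (X : ℝ) ^ δ * (x : ℝ) ^ (-δ) := by
        have h10 : (x : ℝ) ^ δ * (x : ℝ) ^ (-δ) = 1 := by
          rw [← Real.rpow_add hx0, add_neg_cancel, Real.rpow_zero]
        rw [← h10]
        exact mul_le_mul_of_nonneg_right (Real.rpow_le_rpow hx0.le h8 hδ.le) hp.le
      have h11 : (H : ℝ) ≤ H * ((X : ℝ) ^ δ * (x : ℝ) ^ (-δ)) := le_mul_of_one_le_right hH0 h9
      have h12 : 0 ≤ 5 * (H * (x : ℝ) ^ (-δ)) := by positivity
      calc (exceptions x H (Law P a w θ b (expo s a w + ε) x) : ℝ) ≤ H := h7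
        _ ≤ H * ((X : ℝ) ^ δ * (x : ℝ) ^ (-δ)) := h11
        _ ≤ (5 + (X : ℝ) ^ δ) * (H * (x : ℝ) ^ (-δ)) := by linarith
  refine ⟨δ, 5 + (X : ℝ) ^ δ, hδ, by positivity, fun x H hx hxH hHx => ⟨hkey x H hx hxH hHx, ?_⟩⟩
  refine le_trans ?_ (hkey x H hx hxH hHx)
  exact_mod_cast prime_le x H _

end Pool.Agent.Results.MP_d0fd9b_nt.OnePercentOfTheSmallPrimes
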