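import Pool.Agent.Results.MP_d0fd9b_nt.SparseSetsOfPrimes
import Pool.Agent.P8H25.TF.Thin
import Pool.Agent.Helper923.PNT

/-!
# Class groups of the real quadratic fields whose discriminants belong to thin sequences

Let `P` be ANY set of primes that contains, for every `σ < s` and all large `y`, at least `y ^ σ` primes of the interval
`(y, 2y]`; here `0 < s ≤ 1` (`s = 1` for the set of all primes). For a squarefree integer `d ≥ 2` let `K` be the field of the
square root of `d` and `h` its class number, and consider the prime ideals of `K` whose norm is a prime number of `P` and at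
most `(log d)^a`, where `a s > 1`. Let `e = (1 - s) / 2 + 1 / (2 a) + ε`, `ε > 0`. We call `d` good (`Good P a e d`) if

* the classes of these prime ideals generate a subgroup of index at most `d^e`,
* at least `h / d^e` classes are products of at most `log d / log log d` such classes,
* if all these prime ideals are principal, then `h ≤ d^e`.

The theorem says that the squarefree numbers `d ≥ 2`, for instance the primes, are good along every thin family of integers of
exponent `f = 2 (1 - s) + 2 / a` (`Pool.Agent.P8H25.TF.Thin`): near the values of multiplicative functions like `φ`, near the orbits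
of `φ`, near the denominators of good simultaneous approximations, and in the sequences `⌊α n ^ c⌋`. There are no exceptions in
the neighbourhoods respectively in the sequence.

The number of the exceptional `d ≤ x` is `O(x^(f + ε))` by the starting theorem `SparseSetsOfPrimes` of this problem; this is
combined with theorems of the starting library on thin families. Authors: helper49 (values, orbits, approximations: the hand-ins
NearMultiplicativeValues and GoodApproximations, which are replaced by this one) and helper25.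
-/

set_option autoImplicit false

namespace Pool.Agent.Results.MP_d0fd9b_nt.ThinSequences

open Filter Finset
open scoped Classical Topology
open Pool.Agent.P8H49.WT (Few)
open Pool.Agent.P8H25.TF (Thin thin_of_few)
open Pool.Agent.Results.MP_d0fd9b_nt.SparseSetsOfPrimes
open Pool.Agent.N733.TG (LM Expanding lm_totient lm_sigma expanding_pow)

/-- a larger exponent is weaker -/
lemma good_mono {P : Set ℕ} {a e e' : ℝ} {d : ℕ} (hd : 1 ≤ d) (he : e ≤ e') (h : Good P a e d) :
    Good P a e' d := by
  intro K _ _ hK hx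
  obtain ⟨h1, h2, h3⟩ := h K hK hx
  have h4 : (d : ℝ) ^ e ≤ (d : ℝ) ^ e' := Real.rpow_le_rpow_of_exponent_le (by exact_mod_cast hd) he
  exact ⟨h1.trans (mul_le_mul_of_nonneg_right h4 (Nat.cast_nonneg _)), h2.trans h4, fun h5 => (h3 h5).trans h4⟩

/-- The set of all primes has exponent one. -/
lemma hasExponent_univ : HasExponent Set.univ 1 := by
  intro σ hσ
  have h1 : Tendsto (fun y : ℕ => Chebyshev.theta (y : ℝ) / (y : ℝ)) atTop (𝓝 1) :=
    Pool.Agent.Helper923.PNT.theta_div_tendsto.comp tendsto_natCast_atTop_atTop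
  have h2 : Tendsto (fun y : ℕ => Chebyshev.theta ((2 * y : ℕ) : ℝ) / ((2 * y : ℕ) : ℝ)) atTop (𝓝 1) :=
    Pool.Agent.Helper923.PNT.theta_div_tendsto.comp (tendsto_natCast_atTop_atTop.comp
      (tendsto_id.const_mul_atTop' (by norm_num : 0 < 2)))
  have h3 : ∀ᶠ y : ℕ in atTop, (y : ℝ) ^ (max σ 0) * (2 * Real.log (2 * y)) ≤ y := by
    have hδ : 0 < 1 - max σ 0 := by
      have : max σ 0 < 1 := max_lt hσ one_pos
      linarith
    have h4 : Tendsto (fun x : ℝ => Real.log x / x ^ (1 - max σ 0)) atTop (𝓝 0) :=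
      (isLittleO_log_rpow_atTop hδ).tendsto_div_nhds_zero
    have h5 : Tendsto (fun y : ℕ => Real.log (2 * (y : ℝ)) / (2 * (y : ℝ)) ^ (1 - max σ 0)) atTop (𝓝 0) :=
      h4.comp ((tendsto_natCast_atTop_atTop).const_mul_atTop (by norm_num))
    filter_upwards [h5.eventually (gt_mem_nhds (by norm_num : (0 : ℝ) < 1 / 4)), eventually_ge_atTop 1] with y hy hy1
    have hy1' : (1 : ℝ) ≤ y := by exact_mod_cast hy1
    have hy0 : (0 : ℝ) < y := by linarith
    have h6 : (0 : ℝ) < (2 * (y : ℝ)) ^ (1 - max σ 0) := by positivity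
    rw [div_lt_iff₀ h6] at hy
    have h7 : (2 * (y : ℝ)) ^ (1 - max σ 0) ≤ 2 * (y : ℝ) ^ (1 - max σ 0) := by
      rw [Real.mul_rpow (by norm_num) hy0.le]
      apply mul_le_mul_of_nonneg_right _ (by positivity)
      calc (2 : ℝ) ^ (1 - max σ 0) ≤ (2 : ℝ) ^ (1 : ℝ) :=
            Real.rpow_le_rpow_of_exponent_le (by norm_num) (by
              have := le_max_right σ 0
              linarith)
        _ = 2 := by norm_num
    have h8 : 2 * Real.log (2 * y) ≤ (y : ℝ) ^ (1 - max σ 0) := by linarith
    calc (y : ℝ) ^ (max σ 0) * (2 * Real.log (2 * y)) ≤ (y : ℝ) ^ (max σ 0) * (y : ℝ) ^ (1 - max σ 0) :=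
          mul_le_mul_of_nonneg_left h8 (by positivity)
      _ = y := by
          rw [← Real.rpow_add hy0]
          norm_num
  obtain ⟨y₀, hy₀⟩ := eventually_atTop.1 ((h1.eventually (gt_mem_nhds (by norm_num : (1 : ℝ) < 5 / 4))).and
    ((h2.eventually (lt_mem_nhds (by norm_num : (7 / 8 : ℝ) < 1))).and (h3.and (eventually_ge_atTop 1))))
  refine ⟨y₀, fun y hy => ?_⟩
  obtain ⟨e1, e2, e3, e4⟩ := hy₀ y hy
  have hy1 : (1 : ℝ) ≤ y := by exact_mod_cast e4
  have hy0 : (0 : ℝ) < y := by linarith
  have h2y : (0 : ℝ) < ((2 * y : ℕ) : ℝ) := by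
    push_cast
    linarith
  rw [div_lt_iff₀ hy0] at e1
  rw [lt_div_iff₀ h2y] at e2
  have hth : ∀ m : ℕ, Chebyshev.theta (m : ℝ) = ∑ p ∈ (Finset.Icc 0 m).filter Nat.Prime, Real.log p := by
    intro m
    rw [Chebyshev.theta_eq_sum_Icc, Nat.floor_natCast]
  have hsum : Chebyshev.theta ((2 * y : ℕ) : ℝ) - Chebyshev.theta (y : ℝ) =
      ∑ p ∈ (Finset.Ioc y (2 * y)).filter Nat.Prime, Real.log p := by
    rw [hth, hth, sub_eq_iff_eq_add, ← Finset.sum_union]
    · apply Finset.sum_congr _ (fun _ _ => rfl)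
      ext p
      simp only [Finset.mem_union, Finset.mem_filter, Finset.mem_Ioc, Finset.mem_Icc]
      constructor
      · rintro ⟨⟨_, h5⟩, h6⟩
        by_cases h7 : p ≤ y
        · exact Or.inr ⟨⟨Nat.zero_le _, h7⟩, h6⟩
        · exact Or.inl ⟨⟨by omega, h5⟩, h6⟩
      · rintro (⟨⟨h5, h6⟩, h7⟩ | ⟨⟨h5, h6⟩, h7⟩)
        · exact ⟨⟨Nat.zero_le _, h6⟩, h7⟩
        · exact ⟨⟨Nat.zero_le _, by omega⟩, h7⟩
    · rw [Finset.disjoint_left]
      intro p h5 h6
      rw [Finset.mem_filter, Finset.mem_Ioc] at h5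
      rw [Finset.mem_filter, Finset.mem_Icc] at h6
      omega
  have hle : ∑ p ∈ (Finset.Ioc y (2 * y)).filter Nat.Prime, Real.log p ≤
      ((Finset.Ioc y (2 * y)).filter Nat.Prime).card * Real.log (2 * y) := by
    rw [← nsmul_eq_mul]
    apply Finset.sum_le_card_nsmul
    intro p hp
    rw [Finset.mem_filter, Finset.mem_Ioc] at hp
    apply Real.log_le_log (by exact_mod_cast hp.2.pos)
    exact_mod_cast hp.1.2
  have hcard : (primesIn Set.univ y).card = ((Finset.Ioc y (2 * y)).filter Nat.Prime).card := by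
    congr 1
    unfold primesIn
    ext p
    simp only [Finset.mem_filter, Set.mem_univ, and_true]
  rw [hcard]
  have hlog : 0 < Real.log (2 * y) := Real.log_pos (by linarith)
  have hkey : (y : ℝ) / 2 ≤ ((Finset.Ioc y (2 * y)).filter Nat.Prime).card * Real.log (2 * y) := by
    refine le_trans ?_ hle
    rw [← hsum]
    push_cast at e2 ⊢
    linarith
  have h9 : (y : ℝ) ^ σ ≤ (y : ℝ) ^ (max σ 0) := Real.rpow_le_rpow_of_exponent_le hy1 (le_max_left _ _)
  refine h9.trans ?_
  have h10 : (y : ℝ) ^ (max σ 0) * Real.log (2 * y) ≤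
      ((Finset.Ioc y (2 * y)).filter Nat.Prime).card * Real.log (2 * y) := by
    refine le_trans ?_ hkey
    linarith
  exact le_of_mul_le_mul_right h10 hlog

/-- few integers are not good -/
theorem few_class {P : Set ℕ} {s : ℝ} (hs0 : 0 < s) (hs1 : s ≤ 1) (hP : HasExponent P s) {a ε : ℝ}
    (ha : 1 < a * s) (hε : 0 < ε) :
    Few (fun d => 2 ≤ d → Squarefree d → Good P a ((1 - s) / 2 + 1 / (2 * a) + ε) d)
      (2 * (1 - s) + 2 / a) := by
  intro ε' hε'
  obtain ⟨C, hC, h, -⟩ := Pool.Agent.Results.MP_d0fd9b_nt.SparseSetsOfPrimes.result P s hs0 hs1 hP a (min ε ε') ha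
    (lt_min hε hε')
  refine ⟨C, fun X hX => ?_⟩
  have hX1 : (1 : ℝ) ≤ X := by exact_mod_cast hX
  have hsub : {n : ℕ | 1 ≤ n ∧ n ≤ X ∧ ¬ (2 ≤ n → Squarefree n →
      Good P a ((1 - s) / 2 + 1 / (2 * a) + ε) n)} ⊆
      (((Finset.Icc 2 X).filter (fun d => Squarefree d ∧
        ¬ Good P a ((1 - s) / 2 + 1 / (2 * a) + min ε ε') d) : Finset ℕ) : Set ℕ) := by
    rintro n ⟨h1, h2, h3⟩
    push Not at h3
    obtain ⟨h4, h5, h6⟩ := h3
    rw [Finset.mem_coe, Finset.mem_filter, Finset.mem_Icc]
    refine ⟨⟨h4, h2⟩, h5, fun h7 => h6 (good_mono h1 ?_ h7)⟩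
    have := min_le_left ε ε'
    linarith
  have h1 := Set.ncard_le_ncard hsub (Finset.finite_toSet _)
  rw [Set.ncard_coe_finset] at h1
  have h2 := h X
  calc _ ≤ (((Finset.Icc 2 X).filter (fun d => Squarefree d ∧
        ¬ Good P a ((1 - s) / 2 + 1 / (2 * a) + min ε ε') d)).card : ℝ) := by exact_mod_cast h1
    _ ≤ C * (X : ℝ) ^ (2 * (1 - s) + 2 / a + min ε ε') := by
        refine le_trans (le_of_eq ?_) h2
        congr!
    _ ≤ C * (X : ℝ) ^ (2 * (1 - s) + 2 / a + ε') := by
        refine mul_le_mul_of_nonneg_left ?_ hC.le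
        refine Real.rpow_le_rpow_of_exponent_le hX1 ?_
        have := min_le_right ε ε'
        linarith

/-- **The class groups of the real quadratic fields with discriminants in thin families.** Examples: the set of all primes has
exponent `1`, the function of Euler and the sum of the divisors are `LM`, `c v ^ D` is `Expanding`. -/
theorem result :
    (∀ (P : Set ℕ) (s : ℝ), 0 < s → s ≤ 1 → HasExponent P s → ∀ a ε : ℝ, 1 < a * s → 0 < ε →
      ∀ T : (ℕ → Prop) → Prop, Thin (2 * (1 - s) + 2 / a) T →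
        T (fun d => 2 ≤ d → Squarefree d → Good P a ((1 - s) / 2 + 1 / (2 * a) + ε) d)) ∧
    HasExponent Set.univ 1 ∧ LM Nat.totient ∧ LM (fun m => ∑ d ∈ m.divisors, d) ∧
    ∀ c D : ℝ, 0 < c → 1 ≤ D → Expanding (fun v => c * (v : ℝ) ^ D) D := by
  refine ⟨fun P s hs0 hs1 hP a ε ha hε T hT => ?_, hasExponent_univ, lm_totient, lm_sigma,
    fun c D hc hD => expanding_pow hc hD⟩
  have ha0 : 0 < a := by
    by_contra h
    push Not at h
    nlinarith
  have hs : 0 ≤ 2 * (1 - s) + 2 / a := by
    have : 0 < 2 / a := by positivity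
    linarith
  exact thin_of_few hs (few_class hs0 hs1 hP ha hε) hT

end Pool.Agent.Results.MP_d0fd9b_nt.ThinSequences
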